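import Pool.Agent.Run7.h283.OR.Cnt

set_option autoImplicit false

/-!
# Ordinary reduction of cyclic covers of the line with one algebraic branch point of degree `D`

The starting results `MP_adc574_ag.TranscendentalBranchPoint` and `CyclicCovers` treat the curves
`y² = (x - t) F(x)` and `y ^ m = (x - t) ^ a ∏ f_e(x) ^ e` for **transcendental** `t`: above all
large primes (that are `1` modulo `m`) there are closed points with ordinary reduction.  For
algebraic `t`, when the curve is defined over a number field and the closed points above `p` are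
finite in number, nothing is known for genus `≥ 3`.  Here we count the **algebraic numbers `t` of
degree `D`** for which there are unusually few primes `p` with a point of ordinary reduction above
`p` in `Spec ℤ[t]`.

Let `P` be the minimal polynomial of `t` over `ℤ`.  The closed points of `Spec ℤ[t]` above `p` are the
roots of `P` in an algebraic closure `k` of `F_p` (up to conjugation).

* For `p ≡ 1` modulo `m` all but at most `w (p - 1) / m + O(1)` elements of `k` (of all degrees over
  `F_p` together) give a curve with good ordinary reduction: the determinants of the blocks of the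
  Hasse-Witt matrix are polynomials in `t`, not zero by the theorem about the generic member
  (starting files `Pool/Agent/N780/CC`); here `w = ∑_i dim_i ⟨i a⟩_m`, where `dim_i` is the dimension
  of the `i`-th eigenspace of the space of regular differentials, and `⟨⟩_m` the remainder modulo
  `m`. For the hyperelliptic curves `w` is the genus.
* If two different minimal polynomials `P`, `Q` have `r` common roots in `k`, then `p ^ r` divides
  their resultant, which is at most `(2 D)! X ^ (2 D)`.  If all the `D` roots of each of `N`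
  polynomials are in the same set with `w p / m` elements, there are many common roots
  (`Pool/Agent/Run7/h283/AP`).
* Sum over the primes up to `X ^ θ`, with the prime number theorem for progressions.

For `lam = 1 / φ(m)` the theorem says: among the `≍ X ^ (D + 1)` minimal polynomials of degree `D`
with coefficients at most `X` all but `O(X ^ θ)` have primes `p ≤ X ^ θ` above which there is a
closed point at which all the curves have good ordinary reduction, as soon as
`θ > 2 φ(m) w / (m D)`; for hyperelliptic curves of genus `g` (Part B): `θ > g / D`.  For small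
`lam` it says that the logarithmic density of these primes `p ≤ X ^ θ`, among those that are `1`
modulo `m`, is at least `1 - φ(m) lam`, with `O(X ^ θ)` exceptions for `θ > 2 w / (m φ(m) D lam²)`,
which is of interest for `θ < D + 1`.
-/

namespace Pool.Agent.Results.MP_adc574_ag.AlgebraicBranchPoint

open Polynomial Finset

/-- The matrix of the Cartier operator on the forms `x ^ b F ^ (-1 / (p - 1)) dx`, `b < d`: the entry
with indices `a, b` (from `0`) is the coefficient of `x ^ (p (a + 1) - (b + 1))` in `F`, written as the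
coefficient of `x ^ (p (a + 1))` in `x ^ (b + 1) F`. -/
noncomputable def hw {R : Type} [CommRing R] (p d : ℕ) (F : R[X]) : Matrix (Fin d) (Fin d) R :=
  Matrix.of fun a b => (X ^ ((b : ℕ) + 1) * F).coeff (p * ((a : ℕ) + 1))

/-- The dimension of the `i`-th eigenspace of the space of the regular differentials of the curve
`y ^ m = (x - t) ^ a ∏ f_e(x) ^ e`, `1 ≤ e < m`, `f_e` of degree `δ e`. -/
def dim (m a : ℕ) (δ : ℕ → ℕ) (i : ℕ) : ℕ :=
  ((i * a % m) + ∑ e ∈ Ico 1 m, (i * e % m) * δ e - 1) / m

/-- The number `w = ∑_i dim_i ⟨i a⟩_m`. -/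
def width (m a : ℕ) (δ : ℕ → ℕ) : ℕ := ∑ i ∈ Ico 1 m, dim m a δ i * (i * a % m)

/-- The curve `y ^ m = (x - t) ^ a ∏ f_e(x) ^ e` over the algebraically closed field `k` of
characteristic `p ≡ 1` modulo `m` (the `f_e`, `1 ≤ e < m`, are separable and without common roots) is a
good ordinary reduction: `t` is different from the other branch points, and the blocks of the
Hasse-Witt matrix are invertible. -/
def GoodOrdinary {k : Type} [Field k] (p m a : ℕ) (f : ℕ → ℤ[X]) (t : k) : Prop :=
  (∀ e ∈ Ico 1 m, aeval t (f e) ≠ 0) ∧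
    ∀ i ∈ Ico 1 m, (hw p (dim m a (fun e => (f e).natDegree) i)
      ((X - C t) ^ ((i * a % m) * ((p - 1) / m)) *
        ∏ e ∈ Ico 1 m, ((f e).map (Int.castRingHom k)) ^ ((i * e % m) * ((p - 1) / m)))).det ≠ 0

/-- There is a closed point of `Spec ℤ[t]` above `p`, where `t` is a root of the irreducible
polynomial `P`, at which all the curves `y ^ m = (x - t) ^ (a c) ∏ (f c e)(x) ^ e` have good ordinary
reduction. -/
def Ordinary {ι : Type} (m : ℕ) (a : ι → ℕ) (f : ι → ℕ → ℤ[X]) (P : ℤ[X]) (p : ℕ) : Prop :=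
  ∃ _ : Fact p.Prime, ∃ t : AlgebraicClosure (ZMod p), aeval t P = 0 ∧
    ∀ c, GoodOrdinary p m (a c) (f c) t

open Classical in
/-- The sum of `log p / p` over the prime numbers `p ≤ Y` that are `1` modulo `m`, above which there is
a closed point with good ordinary reduction. -/
noncomputable def ordSum {ι : Type} (m : ℕ) (a : ι → ℕ) (f : ι → ℕ → ℤ[X]) (P : ℤ[X]) (Y : ℝ) : ℝ :=
  ∑ p ∈ Icc 1 ⌊Y⌋₊ with (p.Prime ∧ p % m = 1) ∧ Ordinary m a f P p, Real.log p / p

/-- `P` is the minimal polynomial over `ℤ` of an algebraic number of degree `D`, with coefficients at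
most `X`. -/
def IsMin (D : ℕ) (X : ℝ) (P : ℤ[X]) : Prop :=
  P.natDegree = D ∧ Irreducible P ∧ 0 < P.leadingCoeff ∧ ∀ i, |(P.coeff i : ℝ)| ≤ X

/-- Hyperelliptic curves `y² = (x - t) F(x)` of genus `g`: there is a closed point of `Spec ℤ[t]` above
`p`, `P(t) = 0`, at which the curve has good ordinary reduction, that is, `F(t) ≠ 0` and the
Hasse-Witt matrix, with entries the coefficients of `x ^ (p i - j)` in `((x - t) F) ^ ((p - 1) / 2)`,
`1 ≤ i, j ≤ g`, is invertible. -/
def OrdinaryHyp (g : ℕ) (F P : ℤ[X]) (p : ℕ) : Prop :=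
  ∃ _ : Fact p.Prime, ∃ t : AlgebraicClosure (ZMod p), aeval t P = 0 ∧ aeval t F ≠ 0 ∧
    (hw p g (((X - C t) * F.map (Int.castRingHom (AlgebraicClosure (ZMod p)))) ^
      ((p - 1) / 2))).det ≠ 0

open Classical in
/-- The sum of `log p / p` over the odd prime numbers `p ≤ Y` above which there is a closed point with
good ordinary reduction. -/
noncomputable def ordSumHyp (g : ℕ) (F P : ℤ[X]) (Y : ℝ) : ℝ :=
  ∑ p ∈ Icc 1 ⌊Y⌋₊ with (p.Prime ∧ p % 2 = 1) ∧ OrdinaryHyp g F P p, Real.log p / p

open Pool.Agent.Run7.h283.OR in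
lemma partA (m D : ℕ) (hm : 2 ≤ m) (hD : 1 ≤ D) (ι : Type) [Fintype ι] (a : ι → ℕ)
    (ha : ∀ c, a c < m ∧ (a c).Coprime m) (δ : ι → ℕ → ℕ) (lam θ K : ℝ) (hlam : 0 < lam)
    (hθ : 2 * ((∑ c, width m (a c) (δ c) : ℕ) : ℝ) / (m * D * m.totient) < lam ^ 2 * θ) (N₀ : ℕ) :
    ∃ C : ℝ, ∀ f : ι → ℕ → ℤ[X],
      (∀ c, ∀ e ∈ Ico 1 m, (f c e).Monic ∧ (f c e).natDegree = δ c e) →
      (∀ c, ∀ p : ℕ, p.Prime → N₀ < p →
        ((∏ e ∈ Ico 1 m, f c e).map (Int.castRingHom (ZMod p))).Separable) →
      ∀ X : ℝ, 2 ≤ X →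
        (Set.ncard {P : ℤ[X] | IsMin D X P ∧
          ordSum m a f P (X ^ θ) ≤ (1 / m.totient - lam) * θ * Real.log X + K} : ℝ) ≤ C * X ^ θ := by
  classical
  set w := ∑ c, width m (a c) (δ c) with hw'
  have hm0 : (0 : ℝ) < m := by exact_mod_cast (by omega : 0 < m)
  have hD0 : (0 : ℝ) < D := by exact_mod_cast hD
  have hφ0 : (0 : ℝ) < m.totient := by exact_mod_cast Nat.totient_pos.2 (by omega : 0 < m)
  set R := m * D * lam ^ 2 * θ with hR
  set φi := (m.totient : ℝ)⁻¹ with hφi
  have hφi0 : 0 < φi := inv_pos.2 hφ0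
  have hRw : 2 * (w : ℝ) * φi < R := by
    rw [div_lt_iff₀ (by positivity)] at hθ
    rw [hφi, ← div_eq_mul_inv, div_lt_iff₀ hφ0, hR]
    calc 2 * (w : ℝ) < lam ^ 2 * θ * (m * D * m.totient) := hθ
      _ = m * D * lam ^ 2 * θ * m.totient := by ring
  obtain ⟨M, hM⟩ := exists_nat_gt (2 * φi / (R - 2 * w * φi))
  have hM0 : (0 : ℝ) < M := lt_of_le_of_lt (div_nonneg (by positivity) (by linarith)) hM
  have hM1 : 1 ≤ M := by exact_mod_cast hM0
  rw [div_lt_iff₀ (by linarith)] at hM
  set Δ := ∑ c, ∑ e ∈ Ico 1 m, δ c e with hΔ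
  have hcond : 2 * ((w * M + 1 : ℕ) : ℝ) * (m.totient : ℝ)⁻¹ <
      ((m * M : ℕ) : ℝ) * D * lam ^ 2 * θ := by
    push_cast
    have e1 : (m : ℝ) * M * D * lam ^ 2 * θ = M * R := by rw [hR]; ring
    rw [e1, ← hφi]
    nlinarith
  obtain ⟨C, hC⟩ := sparseQ (P₁ := max N₀ (m * (Δ + 2) * (M + 1))) (K := K) (q := m)
    (Nat.mul_pos (by omega) hM1) hD (by omega) hlam hcond
  refine ⟨C, fun f hf hsep X hX => ?_⟩
  have h1m : 1 % m = 1 := Nat.mod_eq_of_lt (by omega)
  have h1 := hC (fun p P => p % m = 1 % m ∧ ¬ Ordinary m a f P p) ?_ X hX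
  · refine le_trans (le_of_eq ?_) h1
    congr 2
    ext P
    simp only [Set.mem_ofPred_eq, Pool.Agent.Run7.h283.AP.Adm, ordSum, IsMin]
    have e1 : ∑ p ∈ Icc 1 ⌊X ^ θ⌋₊ with (p.Prime ∧ p % m = 1) ∧ Ordinary m a f P p, Real.log p / p =
        ∑ p ∈ Icc 1 ⌊X ^ θ⌋₊ with (p.Prime ∧ p % m = 1 % m) ∧ ¬ (p % m = 1 % m ∧
          ¬ Ordinary m a f P p), Real.log p / p := by
      refine sum_congr ?_ fun _ _ => rfl
      refine filter_congr fun p _ => ?_
      rw [h1m]
      tauto
    rw [e1, one_div]
    constructor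
    · rintro ⟨⟨h1, h2, h3, h4⟩, h5⟩
      exact ⟨⟨⟨h1, h2, h3⟩, by convert h5⟩, h4⟩
    · rintro ⟨⟨⟨h1, h2, h3⟩, h5⟩, h4⟩
      exact ⟨⟨h1, h2, h3, h4⟩, by convert h5⟩
  · intro p hp hpN S hS
    have hchar : CharP (AlgebraicClosure (ZMod p)) p :=
      charP_of_injective_algebraMap
        (algebraMap (ZMod p) (AlgebraicClosure (ZMod p))).injective p
    rcases S.eq_empty_or_nonempty with rfl | ⟨P₀, hP₀⟩
    · simp
    have hpm : p % m = 1 := by rw [(hS P₀ hP₀).1, h1m]
    have hdvd : m ∣ p - 1 := (Nat.modEq_iff_dvd' hp.out.one_lt.le).1 (by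
      rw [Nat.ModEq, h1m, hpm])
    have hN0 : N₀ < p := lt_of_le_of_lt (le_max_left _ _) hpN
    have hbig : m * (Δ + 2) * (M + 1) < p := lt_of_le_of_lt (le_max_right _ _) hpN
    have hδle : ∀ c, ∑ e ∈ Ico 1 m, δ c e ≤ Δ := fun c =>
      single_le_sum (f := fun c => ∑ e ∈ Ico 1 m, δ c e) (fun _ _ => Nat.zero_le _) (mem_univ c)
    have hmapQ : ∀ c e, ((f c e).map (Int.castRingHom (ZMod p))).map
        (algebraMap (ZMod p) (AlgebraicClosure (ZMod p))) =
        (f c e).map (Int.castRingHom (AlgebraicClosure (ZMod p))) := by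
      intro c e
      rw [Polynomial.map_map]
      congr 1
    have hcount := count (K := AlgebraicClosure (ZMod p)) p hm hdvd a ha δ
      (fun c e => (f c e).map (Int.castRingHom (AlgebraicClosure (ZMod p))))
      (fun c e he => ⟨(hf c e he).1.map _, by rw [(hf c e he).1.natDegree_map, (hf c e he).2]⟩)
      (fun c => by
        have h2 := (hsep c p hp.out hN0).map (f := algebraMap (ZMod p) (AlgebraicClosure (ZMod p)))
        rw [Polynomial.map_prod, Polynomial.map_prod] at h2
        simp_rw [hmapQ] at h2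
        exact h2)
      (fun c => by
        have h2 := hδle c
        have h3 : m * (∑ e ∈ Ico 1 m, δ c e + 2) ≤ m * (Δ + 2) := Nat.mul_le_mul_left _ (by omega)
        have h4 : m * (Δ + 2) * 1 ≤ m * (Δ + 2) * (M + 1) := Nat.mul_le_mul_left _ (by omega)
        omega)
      (S.biUnion (Pool.Agent.Run7.h283.AP.rts p)) (by
        intro t ht
        rw [mem_biUnion] at ht
        obtain ⟨P, hP, htP⟩ := ht
        rw [Pool.Agent.Run7.h283.AP.rts, Multiset.mem_toFinset] at htP
        have h2 := (mem_roots'.1 htP).2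
        rw [IsRoot.def, eval_map] at h2
        by_contra hcon
        push Not at hcon
        refine (hS P hP).2 ⟨hp, t, ?_, fun c => ⟨?_, ?_⟩⟩
        · rw [aeval_def]
          exact h2
        · intro e he
          have h3 := (hcon c).1 e he
          rw [eval_map] at h3
          rw [aeval_def]
          exact h3
        · intro i hi
          have h3 := (hcon c).2 i hi
          have h4 : dim m (a c) (fun e => (f c e).natDegree) i = dimE m (a c) (δ c) i := by
            unfold dim dimE
            congr 3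
            refine sum_congr rfl fun e he => ?_
            show (i * e % m) * (f c e).natDegree = (i * e % m) * δ c e
            rw [(hf c e he).2]
          rw [h4]
          exact h3)
    set E := (p - 1) / m with hE
    have hEm : E * m = p - 1 := Nat.div_mul_cancel hdvd
    have hsum : ∑ c, (∑ e ∈ Ico 1 m, δ c e +
        ∑ i ∈ Ico 1 m, dimE m (a c) (δ c) i * ((i * a c % m) * E)) = Δ + w * E := by
      rw [sum_add_distrib, hw', sum_mul]
      congr 1
      refine sum_congr rfl fun c _ => ?_
      unfold width dim dimE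
      rw [sum_mul]
      exact sum_congr rfl fun i _ => by ring
    rw [hsum] at hcount
    calc (S.biUnion (Pool.Agent.Run7.h283.AP.rts p)).card * (m * M)
        ≤ (Δ + w * E) * (m * M) := Nat.mul_le_mul_right _ hcount
      _ = Δ * m * M + w * M * (E * m) := by ring
      _ = Δ * m * M + w * M * (p - 1) := by rw [hEm]
      _ ≤ p + w * M * p := by
          refine add_le_add ?_ (Nat.mul_le_mul_left _ (Nat.sub_le _ _))
          have h5 : Δ * m * M ≤ m * (Δ + 2) * (M + 1) := by nlinarith
          omega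
      _ = (w * M + 1) * p := by ring

lemma partB (g D : ℕ) (hg : 1 ≤ g) (hD : 1 ≤ D) (F : ℤ[X]) (hF : F.Monic)
    (hdeg : F.natDegree = 2 * g ∨ F.natDegree = 2 * g + 1)
    (hsep : (F.map (Int.castRingHom ℚ)).Separable) (lam θ K : ℝ) (hlam : 0 < lam)
    (hθ : (g : ℝ) / D < lam ^ 2 * θ) :
    ∃ C : ℝ, ∀ X : ℝ, 2 ≤ X →
      (Set.ncard {P : ℤ[X] | IsMin D X P ∧
        ordSumHyp g F P (X ^ θ) ≤ (1 - lam) * θ * Real.log X + K} : ℝ) ≤ C * X ^ θ := by
  classical
  have hI : Ico 1 2 = ({1} : Finset ℕ) := by decide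
  have hdim : ∀ δ : ℕ → ℕ, δ 1 = 2 * g ∨ δ 1 = 2 * g + 1 → dim 2 1 δ 1 = g := by
    intro δ h
    unfold dim
    rw [hI, sum_singleton]
    rcases h with h | h <;> rw [h] <;> omega
  have hwid : width 2 1 (fun _ => F.natDegree) = g := by
    unfold width
    rw [hI, sum_singleton, hdim _ hdeg]
    norm_num
  obtain ⟨N₀, hN₀⟩ := Pool.Agent.Run7.h283.OR.sep_large F hsep
  obtain ⟨C, hC⟩ := partA 2 D le_rfl hD Unit (fun _ => 1) (fun _ => ⟨by norm_num, by norm_num⟩)
    (fun _ _ => F.natDegree) lam θ K hlam (by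
      rw [Fintype.univ_unit, sum_singleton, hwid, Nat.totient_two]
      push_cast
      have hD0 : (0 : ℝ) < D := by exact_mod_cast hD
      have : 2 * (g : ℝ) / (2 * D * 1) = g / D := by field_simp
      rw [this]
      exact hθ) N₀
  refine ⟨C, fun X hX => ?_⟩
  have h1 := hC (fun _ _ => F) (fun _ _ _ => ⟨hF, rfl⟩) (fun _ p hp hpN => by
    rw [hI, prod_singleton]
    exact hN₀ p hp hpN) X hX
  refine le_trans (le_of_eq ?_) h1
  congr 2
  ext P
  have hiff : ∀ p : ℕ, Ordinary 2 (fun _ : Unit => 1) (fun _ _ => F) P p ↔ OrdinaryHyp g F P p := by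
    intro p
    unfold Ordinary OrdinaryHyp GoodOrdinary
    refine exists_congr fun _ => exists_congr fun t => and_congr_right fun _ => ?_
    simp only [hI, mem_singleton, forall_eq, prod_singleton, forall_const]
    refine and_congr_right fun _ => ?_
    rw [hdim _ hdeg, ← mul_pow]
    norm_num
  have hs : ordSum 2 (fun _ : Unit => 1) (fun _ _ => F) P (X ^ θ) = ordSumHyp g F P (X ^ θ) := by
    unfold ordSum ordSumHyp
    refine sum_congr ?_ fun _ _ => rfl
    exact filter_congr fun p _ => by rw [hiff]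
  simp only [Set.mem_ofPred_eq, hs, Nat.totient_two, Nat.cast_one, div_one]

/-- **Ordinary reduction of cyclic covers of the line with an algebraic branch point.**

(A) Let `m ≥ 2`, `D ≥ 1`, and `δ c e` be natural numbers, `c` in a finite set, `1 ≤ e < m`; let the
numbers `a c < m` be prime to `m`, `w = ∑_c ∑_i dim_(c,i) ⟨i a_c⟩_m`, `lam > 0`, `K` a real number,
`lam² θ > 2 w / (m φ(m) D)`.  There is a constant `C` such that for all monic polynomials `f c e` over
`ℤ` of degree `δ c e` such that for each `c` the product of the `f c e` is separable modulo all primes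
`p > N₀`, and for all `X ≥ 2`: at most `C X ^ θ` minimal polynomials `P` of algebraic numbers `t` of
degree `D`, with coefficients at most `X`, satisfy `∑ log p / p ≤ (1 / φ(m) - lam) θ log X + K`, where
the sum is over the prime numbers `p ≤ X ^ θ`, `p ≡ 1` modulo `m`, for which there is a closed point
of `Spec ℤ[t]` above `p` at which all the curves `y ^ m = (x - t) ^ (a c) ∏_e (f c e)(x) ^ e` have good
ordinary reduction.

(B) Let `F` be a monic polynomial over `ℤ` without multiple roots, of degree `2 g` or `2 g + 1`, and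
`lam² θ > g / D`, `lam > 0`.  There is a constant `C` such that for all `X ≥ 2` at most `C X ^ θ`
minimal polynomials `P` of algebraic numbers `t` of degree `D`, with coefficients at most `X`, satisfy
`∑ log p / p ≤ (1 - lam) θ log X + K`, where the sum is over the odd prime numbers `p ≤ X ^ θ` for
which there is a closed point of `Spec ℤ[t]` above `p` at which the hyperelliptic curve
`y² = (x - t) F(x)` of genus `g` has good ordinary reduction. -/
theorem result :
    (∀ m D : ℕ, 2 ≤ m → 1 ≤ D → ∀ (ι : Type) [Fintype ι] (a : ι → ℕ),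
      (∀ c, a c < m ∧ (a c).Coprime m) → ∀ (δ : ι → ℕ → ℕ) (lam θ K : ℝ), 0 < lam →
      2 * ((∑ c, width m (a c) (δ c) : ℕ) : ℝ) / (m * D * m.totient) < lam ^ 2 * θ →
      ∀ N₀ : ℕ, ∃ C : ℝ, ∀ f : ι → ℕ → ℤ[X],
        (∀ c, ∀ e ∈ Ico 1 m, (f c e).Monic ∧ (f c e).natDegree = δ c e) →
        (∀ c, ∀ p : ℕ, p.Prime → N₀ < p →
          ((∏ e ∈ Ico 1 m, f c e).map (Int.castRingHom (ZMod p))).Separable) →
        ∀ X : ℝ, 2 ≤ X →
          (Set.ncard {P : ℤ[X] | IsMin D X P ∧
            ordSum m a f P (X ^ θ) ≤ (1 / m.totient - lam) * θ * Real.log X + K} : ℝ) ≤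
            C * X ^ θ) ∧
    (∀ g D : ℕ, 1 ≤ g → 1 ≤ D → ∀ F : ℤ[X], F.Monic →
      (F.natDegree = 2 * g ∨ F.natDegree = 2 * g + 1) → (F.map (Int.castRingHom ℚ)).Separable →
      ∀ lam θ K : ℝ, 0 < lam → (g : ℝ) / D < lam ^ 2 * θ →
      ∃ C : ℝ, ∀ X : ℝ, 2 ≤ X →
        (Set.ncard {P : ℤ[X] | IsMin D X P ∧
          ordSumHyp g F P (X ^ θ) ≤ (1 - lam) * θ * Real.log X + K} : ℝ) ≤ C * X ^ θ) :=
  ⟨partA, partB⟩

end Pool.Agent.Results.MP_adc574_ag.AlgebraicBranchPoint
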