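import Pool.Agent.Run7.h594.CY.Main

/-!
# Ordinary primes of a Calabi-Yau fivefold

For an integer `d ≠ 0` let `X_d` be the double covering
`d v² = ∏_{i=1}^4 y_i (y_i - z) (y_i - s)` of `ℙ⁵` branched along twelve hyperplanes. The
transcendental part of its middle cohomology is the motive of a twist of the newform `η(2τ)¹²` of
weight `6` and level `4`, which has no complex multiplication. The number `A_p` of solutions of the
equation in `𝔽_p⁷` is congruent to the Hasse invariant of `X_d` modulo `p`:
`#X_d(𝔽_p) = (A_p - 1) / (p - 1) ≡ 1 - A_p`.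

Theorem: the set of the primes `p` which do not divide `A_p` has positive lower density.
-/

set_option autoImplicit false

namespace Pool.Agent.Results.MP_adc574_ag.CalabiYauFivefold

/-- The set of all `(s, z, (y_1, y_2, y_3, y_4), v)` over `𝔽_p` with
`d v² = ∏_i y_i (y_i - z) (y_i - s)`. -/
def Solutions (p : ℕ) (d : ℤ) : Set (ZMod p × ZMod p × (Fin 4 → ZMod p) × ZMod p) :=
  {P | (d : ZMod p) * P.2.2.2 ^ 2 =
    ∏ i : Fin 4, P.2.2.1 i * (P.2.2.1 i - P.2.1) * (P.2.2.1 i - P.1)}

/-- **Theorem.** For every integer `d ≠ 0` the primes `p` which do not divide the number of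
solutions `(s, z, y_1, y_2, y_3, y_4, v)` of `d v² = ∏_i y_i (y_i - z) (y_i - s)` over `𝔽_p` have
positive lower density in the set of all primes. -/
theorem result (d : ℤ) (hd : d ≠ 0) :
    0 < Filter.liminf (fun x : ℕ =>
      (Nat.card {p : ℕ // p ≤ x ∧ p.Prime ∧ ¬ p ∣ Nat.card (Solutions p d)} : ℝ) /
        Nat.card {p : ℕ // p ≤ x ∧ p.Prime}) Filter.atTop :=
  H594.CY.fivefold d hd

end Pool.Agent.Results.MP_adc574_ag.CalabiYauFivefold
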