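import Pool.Agent.Run7.h283.OR.Nst
import Pool.Agent.Run7.h283.OR.Sv

set_option autoImplicit false

/-!
# Ordinary reduction of hypersurfaces in one parameter families, at algebraic parameters of degree `D`

Let `F_t = h + t f_1 + ⋯ + t ^ r f_r` be a family of forms of degree `d` in `n` variables, with integral
coefficients, `h` smooth.  For an algebraic number `t` of degree `D` the hypersurface `F_t = 0` is
defined over a number field, and there are finitely many closed points of `Spec ℤ[t]` above a prime
number `p`.  Whether there is one with ordinary reduction, for a single `p`, is known for no curve of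
genus `≥ 3` with a large Galois image, and for no surface of general type outside special families.  We
count the numbers `t` for which there are unusually few primes `p` with such a point.  (For plane curves
and for surfaces in the projective space of dimension 3 good reduction with an invertible Hasse-Witt
matrix, that is, Frobenius is bijective on `H ^ (n - 2)(O)`, is ordinary reduction in the sense of Bloch
and Kato: `H ^ j(BΩ¹) = 0` by the sequence `0 → O → F_* O → BΩ¹ → 0`, and for surfaces
`H ^ j(BΩ²)` is dual to `H ^ (2 - j)(BΩ¹)`. Products of such varieties are ordinary too.  For other `n`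
it is a part of the condition.)

* The Hasse-Witt matrix of `F_t` is a matrix of polynomials in `t` of degree at most `r (p - 1)`.  If
  the member `h` (`t = 0`) is ordinary modulo `p`, then its determinant is not zero, and at most
  `w r (p - 1)` elements `t` of an algebraic closure `k` of `F_p` are bad, `w` the size of the matrix.
* For diagonal forms `h = ∑ a_i x_i ^ d` and `p ≡ 1` modulo `d` the Hasse-Witt matrix is diagonal, with
  entries multinomial coefficients of `p - 1`.
* The number of singular members is bounded independently of `p`: by the Nullstellensatz over `ℚ` the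
  monomials of some degree `M`, times an integer, are in the ideal of the partial derivatives of `h`;
  the matrix of the corresponding combinations of the partial derivatives of `F_t` has a determinant
  that is not zero at `t = 0`, and if it is not zero at `t`, then `F_t` is smooth.
* If two minimal polynomials have many common roots in `k`, then a high power of `p` divides their
  resultant: sieve of `Pool/Agent/Run7/h283/AP`, `OR/Sv`, as for `AlgebraicBranchPoint`.
-/

namespace Pool.Agent.Results.MP_adc574_ag.HypersurfaceFamilies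

open MvPolynomial Finset

/-- The exponent vectors `u` with positive entries and sum `d`.  The `x ^ (-u)` are a basis of
`H ^ (n - 2)(X, O)` for the hypersurfaces `X` of degree `d` in the projective space of dimension
`n - 1`. -/
def Idx (n d : ℕ) : Finset (Fin n → ℕ) := (univ.piAntidiag d).filter fun u => ∀ i, u i ≠ 0

/-- The Hasse-Witt matrix of the hypersurface `F = 0` of degree `d` in characteristic `p`: the entry
with indices `u, v` is the coefficient of `x ^ (p u - v)` in `F ^ (p - 1)`. -/
noncomputable def hasseWitt {R : Type} [CommRing R] (p n d : ℕ) (F : MvPolynomial (Fin n) R) :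
    Matrix (Idx n d) (Idx n d) R :=
  Matrix.of fun u v =>
    (F ^ (p - 1)).coeff (Finsupp.equivFunOnFinite.symm fun i => p * u.1 i - v.1 i)

/-- The partial derivatives have no common zero except `0` (in characteristic prime to the degree this
means that the hypersurface `F = 0` is smooth; `k` is algebraically closed below). -/
def Smooth {k : Type} [Field k] {n : ℕ} (F : MvPolynomial (Fin n) k) : Prop :=
  ∀ x : Fin n → k, (∀ i, eval x (pderiv i F) = 0) → x = 0

/-- The member `F_t` over the field `k`. -/
noncomputable def member {k : Type} [Field k] {n : ℕ} (F : MvPolynomial (Fin n) (Polynomial ℤ))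
    (t : k) : MvPolynomial (Fin n) k :=
  F.map (Polynomial.eval₂RingHom (Int.castRingHom k) t)

/-- `p` is greater than the degrees `d c`, and there is a closed point of `Spec ℤ[t]` above `p`, where
`t` is a root of the irreducible polynomial `P`, at which all the hypersurfaces `F_t = 0`, for the
families `F c`, have good reduction with an invertible Hasse-Witt matrix. -/
def Ordinary {ι : Type} (n d : ι → ℕ) (F : ∀ c, MvPolynomial (Fin (n c)) (Polynomial ℤ))
    (P : Polynomial ℤ) (p : ℕ) : Prop :=
  ∃ _ : Fact p.Prime, (∀ c, d c < p) ∧ ∃ t : AlgebraicClosure (ZMod p), Polynomial.aeval t P = 0 ∧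
    ∀ c, Smooth (member (F c) t) ∧ (hasseWitt p (n c) (d c) (member (F c) t)).det ≠ 0

open Classical in
/-- The sum of `log p / p` over the prime numbers `p ≤ Y` that are `1` modulo `q`, above which there is
a closed point as in `Ordinary`. -/
noncomputable def ordSum {ι : Type} (q : ℕ) (n d : ι → ℕ)
    (F : ∀ c, MvPolynomial (Fin (n c)) (Polynomial ℤ)) (P : Polynomial ℤ) (Y : ℝ) : ℝ :=
  ∑ p ∈ Icc 1 ⌊Y⌋₊ with (p.Prime ∧ p ≡ 1 [MOD q]) ∧ Ordinary n d F P p, Real.log p / p

/-- `P` is the minimal polynomial over `ℤ` of an algebraic number of degree `D`, with coefficients at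
most `X`. -/
def IsMin (D : ℕ) (X : ℝ) (P : Polynomial ℤ) : Prop :=
  P.natDegree = D ∧ Irreducible P ∧ 0 < P.leadingCoeff ∧ ∀ i, |(P.coeff i : ℝ)| ≤ X

open Pool.Agent.Run7.h283.OR in
lemma partA {ι : Type} [Fintype ι] (q D : ℕ) (hq : 1 ≤ q) (hD : 1 ≤ D) (n d r : ι → ℕ)
    (h : ∀ c, MvPolynomial (Fin (n c)) ℤ)
    (hsm : ∀ c, ∀ x : Fin (n c) → ℂ, (∀ i, aeval x (pderiv i (h c)) = 0) → x = 0) (N₀ : ℕ)
    (hhw : ∀ c, ∀ (p : ℕ) [Fact p.Prime], N₀ < p → p ≡ 1 [MOD q] →
      (hasseWitt p (n c) (d c) ((h c).map (Int.castRingHom (ZMod p)))).det ≠ 0)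
    (lam θ K : ℝ) (hlam : 0 < lam)
    (hθ : 2 * ((∑ c, (Idx (n c) (d c)).card * r c : ℕ) : ℝ) / (D * q.totient) < lam ^ 2 * θ) :
    ∃ A : ℝ, ∀ F : ∀ c, MvPolynomial (Fin (n c)) (Polynomial ℤ),
      (∀ c, (F c).IsHomogeneous (d c) ∧ (∀ m, ((F c).coeff m).natDegree ≤ r c) ∧
        (F c).map Polynomial.constantCoeff = h c) →
      ∀ X : ℝ, 2 ≤ X →
        (Set.ncard {P : Polynomial ℤ | IsMin D X P ∧
          ordSum q n d F P (X ^ θ) ≤ (1 / q.totient - lam) * θ * Real.log X + K} : ℝ) ≤
          A * X ^ θ := by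
  classical
  set w := ∑ c, (Idx (n c) (d c)).card * r c with hw'
  have hD0 : (0 : ℝ) < D := by exact_mod_cast hD
  have hφ0 : (0 : ℝ) < q.totient := by exact_mod_cast Nat.totient_pos.2 (by omega : 0 < q)
  set R := D * lam ^ 2 * θ with hR
  set φi := (q.totient : ℝ)⁻¹ with hφi
  have hφi0 : 0 < φi := inv_pos.2 hφ0
  have hRw : 2 * (w : ℝ) * φi < R := by
    rw [div_lt_iff₀ (by positivity)] at hθ
    rw [hφi, ← div_eq_mul_inv, div_lt_iff₀ hφ0, hR]
    calc 2 * (w : ℝ) < lam ^ 2 * θ * (D * q.totient) := hθ
      _ = D * lam ^ 2 * θ * q.totient := by ring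
  obtain ⟨M', hM'⟩ := exists_nat_gt (2 * φi / (R - 2 * w * φi))
  have hM0 : (0 : ℝ) < M' := lt_of_le_of_lt (div_nonneg (by positivity) (by linarith)) hM'
  have hM1 : 1 ≤ M' := by exact_mod_cast hM0
  rw [div_lt_iff₀ (by linarith)] at hM'
  choose M N G hMpos hN hG using fun c => null (h c) (hsm c)
  set B := ∑ c, (Mon (n c) (M c)).card * r c with hB
  have hcond : 2 * ((w * M' + 1 : ℕ) : ℝ) * (q.totient : ℝ)⁻¹ <
      ((M' : ℕ) : ℝ) * D * lam ^ 2 * θ := by
    push_cast
    have e1 : (M' : ℝ) * D * lam ^ 2 * θ = M' * R := by rw [hR]; ring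
    rw [e1, ← hφi]
    nlinarith
  obtain ⟨C, hC⟩ := sparseQ (P₁ := N₀ + ∑ c, (N c).natAbs + ∑ c, d c + B * M') (K := K) (q := q)
    hM1 hD hq hlam hcond
  refine ⟨C, fun F hF X hX => ?_⟩
  have h1 := hC (fun p P => p % q = 1 % q ∧ ¬ Ordinary n d F P p) ?_ X hX
  · refine le_trans (le_of_eq ?_) h1
    congr 2
    ext P
    simp only [Set.mem_ofPred_eq, Pool.Agent.Run7.h283.AP.Adm, ordSum, IsMin]
    have e1 : ∑ p ∈ Icc 1 ⌊X ^ θ⌋₊ with (p.Prime ∧ p ≡ 1 [MOD q]) ∧ Ordinary n d F P p,
        Real.log p / p =
        ∑ p ∈ Icc 1 ⌊X ^ θ⌋₊ with (p.Prime ∧ p % q = 1 % q) ∧ ¬ (p % q = 1 % q ∧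
          ¬ Ordinary n d F P p), Real.log p / p := by
      refine sum_congr ?_ fun _ _ => rfl
      refine filter_congr fun p _ => ?_
      rw [Nat.ModEq]
      tauto
    rw [e1, one_div]
    constructor
    · rintro ⟨⟨h1, h2, h3, h4⟩, h5⟩
      exact ⟨⟨⟨h1, h2, h3⟩, by convert h5⟩, h4⟩
    · rintro ⟨⟨⟨h1, h2, h3⟩, h5⟩, h4⟩
      exact ⟨⟨h1, h2, h3, h4⟩, by convert h5⟩
  · intro p hp hpN S hS
    have hchar : CharP (AlgebraicClosure (ZMod p)) p :=
      charP_of_injective_algebraMap
        (algebraMap (ZMod p) (AlgebraicClosure (ZMod p))).injective p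
    rcases S.eq_empty_or_nonempty with rfl | ⟨P₀, hP₀⟩
    · simp
    have hpm : p ≡ 1 [MOD q] := (hS P₀ hP₀).1
    set k := AlgebraicClosure (ZMod p) with hk
    set T := S.biUnion (Pool.Agent.Run7.h283.AP.rts p) with hT
    have hNk : ∀ c, ((N c : ℤ) : k) ≠ 0 := by
      intro c h0
      rw [CharP.intCast_eq_zero_iff k p] at h0
      have h2 : p ≤ (N c).natAbs :=
        Nat.le_of_dvd (Int.natAbs_pos.2 (hN c)) (Int.natCast_dvd.1 h0)
      have h3 : (N c).natAbs ≤ ∑ c, (N c).natAbs :=
        single_le_sum (f := fun c => (N c).natAbs) (fun _ _ => Nat.zero_le _) (mem_univ c)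
      omega
    have hdp : ∀ c, d c < p := by
      intro c
      have h3 : d c ≤ ∑ c, d c :=
        single_le_sum (f := d) (fun _ _ => Nat.zero_le _) (mem_univ c)
      omega
    have hmem : ∀ c (t : k), ((F c).map (Polynomial.mapRingHom (Int.castRingHom k))).map
        (Polynomial.evalRingHom t) = member (F c) t := by
      intro c t
      have e : (Polynomial.evalRingHom t).comp (Polynomial.mapRingHom (Int.castRingHom k)) =
          Polynomial.eval₂RingHom (Int.castRingHom k) t :=
        Polynomial.ringHom_ext (fun a => by simp) (by simp)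
      rw [MvPolynomial.map_map, member, e]
    have hmem0 : ∀ c, ((F c).map (Polynomial.mapRingHom (Int.castRingHom k))).map
        (Polynomial.evalRingHom 0) = (h c).map (Int.castRingHom k) := by
      intro c
      have e : (Polynomial.evalRingHom 0).comp (Polynomial.mapRingHom (Int.castRingHom k)) =
          (Int.castRingHom k).comp Polynomial.constantCoeff :=
        Polynomial.ringHom_ext (fun a => by simp) (by simp)
      rw [← (hF c).2.2, MvPolynomial.map_map, MvPolynomial.map_map, e]
    have hcount : ∀ c, (T.filter fun t => ¬ (Sm (member (F c) t) ∧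
        (HW p (n c) (d c) (member (F c) t)).det ≠ 0)).card ≤
        (Mon (n c) (M c)).card * r c + (Idx (n c) (d c)).card * (r c * (p - 1)) := by
      intro c
      refine countH p (hMpos c) ((F c).map (Polynomial.mapRingHom (Int.castRingHom k)))
        (MB.map (hF c).2.1 _) ((hF c).1.map _) ?_ (N c : k) (hNk c)
        (fun m i => (G c m i).map (Int.castRingHom k)) ?_ _ ?_
      · rw [hmem0]
        have h2 : (h c).map (Int.castRingHom k) = ((h c).map (Int.castRingHom (ZMod p))).map
            (algebraMap (ZMod p) k) := by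
          rw [MvPolynomial.map_map, Subsingleton.elim ((algebraMap (ZMod p) k).comp
            (Int.castRingHom (ZMod p))) (Int.castRingHom k)]
        rw [h2, ← HW_map]
        have h3 := hhw c p (by omega) hpm
        intro h4
        exact h3 ((algebraMap (ZMod p) k).injective (by rw [map_zero]; exact h4))
      · intro m
        rw [hmem0]
        have h2 := congrArg (MvPolynomial.map (Int.castRingHom k)) (hG c m)
        rw [map_sum, map_mul, map_C, map_monomial, map_one, eq_intCast] at h2
        rw [← h2]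
        refine sum_congr rfl fun i _ => ?_
        rw [map_mul, pderiv_map]
      · intro t ht
        rw [mem_filter] at ht
        rw [hmem]
        exact ht.2
    have hTsub : T ⊆ univ.biUnion fun c => T.filter fun t => ¬ (Sm (member (F c) t) ∧
        (HW p (n c) (d c) (member (F c) t)).det ≠ 0) := by
      intro t ht
      rw [mem_biUnion]
      have ht' := ht
      rw [hT, mem_biUnion] at ht'
      obtain ⟨P, hP, htP⟩ := ht'
      rw [Pool.Agent.Run7.h283.AP.rts, Multiset.mem_toFinset] at htP
      have h2 := (Polynomial.mem_roots'.1 htP).2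
      rw [Polynomial.IsRoot.def, Polynomial.eval_map] at h2
      by_contra hcon
      refine (hS P hP).2 ⟨hp, hdp, t, ?_, fun c => ?_⟩
      · rw [Polynomial.aeval_def]
        exact h2
      · by_contra h3
        exact hcon ⟨c, mem_univ c, mem_filter.2 ⟨ht, h3⟩⟩
    have hTcard : T.card ≤ B + w * (p - 1) := by
      refine (card_le_card hTsub).trans (card_biUnion_le.trans ?_)
      refine (sum_le_sum fun c _ => hcount c).trans (le_of_eq ?_)
      rw [sum_add_distrib, hB, hw', sum_mul]
      congr 1
      exact sum_congr rfl fun c _ => by ring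
    calc T.card * M' ≤ (B + w * (p - 1)) * M' := Nat.mul_le_mul_right _ hTcard
      _ = B * M' + w * M' * (p - 1) := by ring
      _ ≤ p + w * M' * p := by
          refine add_le_add ?_ (Nat.mul_le_mul_left _ (Nat.sub_le _ _))
          omega
      _ = (w * M' + 1) * p := by ring

lemma partB {ι : Type} [Fintype ι] (q D : ℕ) (hq : 1 ≤ q) (hD : 1 ≤ D) (n d r : ι → ℕ)
    (hdq : ∀ c, 1 ≤ d c ∧ d c ∣ q) (a : ∀ c, Fin (n c) → ℤ) (ha : ∀ c i, a c i ≠ 0)
    (lam θ K : ℝ) (hlam : 0 < lam)
    (hθ : 2 * ((∑ c, (Idx (n c) (d c)).card * r c : ℕ) : ℝ) / (D * q.totient) < lam ^ 2 * θ) :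
    ∃ A : ℝ, ∀ F : ∀ c, MvPolynomial (Fin (n c)) (Polynomial ℤ),
      (∀ c, (F c).IsHomogeneous (d c) ∧ (∀ m, ((F c).coeff m).natDegree ≤ r c) ∧
        (F c).map Polynomial.constantCoeff = ∑ i, C (a c i) * X i ^ d c) →
      ∀ X : ℝ, 2 ≤ X →
        (Set.ncard {P : Polynomial ℤ | IsMin D X P ∧
          ordSum q n d F P (X ^ θ) ≤ (1 / q.totient - lam) * θ * Real.log X + K} : ℝ) ≤
          A * X ^ θ := by
  classical
  refine partA q D hq hD n d r (fun c => ∑ i, C (a c i) * X i ^ d c) ?_
    (∑ c, ∑ i, (a c i).natAbs) ?_ lam θ K hlam hθ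
  · intro c x hx
    funext i
    have h1 := hx i
    rw [map_sum, map_sum, sum_eq_single i] at h1
    · rw [pderiv_C_mul, pderiv_pow, pderiv_X_self, mul_one, map_mul, map_mul, map_natCast,
        map_pow, aeval_X, aeval_C] at h1
      have h2 : (algebraMap ℤ ℂ) (a c i) ≠ 0 := by
        rw [eq_intCast]
        exact_mod_cast ha c i
      have h3 : ((d c : ℕ) : ℂ) ≠ 0 := by
        have := (hdq c).1
        exact_mod_cast (by omega : d c ≠ 0)
      rcases mul_eq_zero.1 h1 with h4 | h4
      · exact absurd h4 h2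
      · rcases mul_eq_zero.1 h4 with h5 | h5
        · exact absurd h5 h3
        · by_contra hne
          exact pow_ne_zero _ hne h5
    · intro j _ hj
      rw [pderiv_C_mul, pderiv_pow, pderiv_X_of_ne hj]
      simp
    · intro h
      exact absurd (mem_univ i) h
  · intro c p hp hpN hpq
    have h1 : (∑ i, C (a c i) * X i ^ d c : MvPolynomial (Fin (n c)) ℤ).map
        (Int.castRingHom (ZMod p)) = ∑ i, C ((a c i : ℤ) : ZMod p) * X i ^ d c := by
      rw [map_sum]
      refine sum_congr rfl fun i _ => ?_
      rw [map_mul, map_C, map_pow, map_X, eq_intCast]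
    rw [h1]
    refine Pool.Agent.Run7.h283.OR.HW_diag p (hdq c).1 ?_ _ ?_
    · exact (hdq c).2.trans ((Nat.modEq_iff_dvd' hp.out.one_lt.le).1 hpq.symm)
    · intro i h0
      rw [ZMod.intCast_zmod_eq_zero_iff_dvd] at h0
      have h2 : p ≤ (a c i).natAbs :=
        Nat.le_of_dvd (Int.natAbs_pos.2 (ha c i)) (Int.natCast_dvd.1 h0)
      have h3 : (a c i).natAbs ≤ ∑ i, (a c i).natAbs :=
        single_le_sum (f := fun i => (a c i).natAbs) (fun _ _ => Nat.zero_le _) (mem_univ i)
      have h4 : ∑ i, (a c i).natAbs ≤ ∑ c, ∑ i, (a c i).natAbs :=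
        single_le_sum (f := fun c => ∑ i, (a c i).natAbs) (fun _ _ => Nat.zero_le _) (mem_univ c)
      omega

/-- **Ordinary reduction of hypersurfaces in one parameter families, at algebraic parameters.**

Let `q, D ≥ 1`; for `c` in a finite set let `n_c, d_c, r_c` be natural numbers, `w = ∑_c r_c w_c`, where
`w_c` is the number of the exponent vectors with `n_c` positive entries and sum `d_c`; `lam > 0`, `K` a
real number, `lam² θ > 2 w / (D φ(q))`.

(A) Let `h_c` be polynomials over `ℤ` in `n_c` variables whose partial derivatives have no common complex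
zero except `0`, such that for all primes `p > N₀` that are `1` modulo `q` the Hasse-Witt matrices (for
the degree `d_c`) of the `h_c` modulo `p` are invertible.  There is a constant `A` such that for all
families of forms `F_c` of degree `d_c` over `ℤ[t]`, with coefficients of degree at most `r_c` in `t`
and `F_c = h_c` for `t = 0`, and for all `X ≥ 2`: at most `A X ^ θ` minimal polynomials `P` of algebraic
numbers `t` of degree `D`, with coefficients at most `X`, satisfy
`∑ log p / p ≤ (1 / φ(q) - lam) θ log X + K`, where the sum is over the primes `p ≤ X ^ θ`, `p ≡ 1` modulo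
`q`, greater than the `d_c`, for which there is a closed point of `Spec ℤ[t]` above `p` at which all the
hypersurfaces `(F_c)_t = 0` have good reduction with an invertible Hasse-Witt matrix.

(B) This holds for the diagonal forms `h_c = ∑ a_(c,i) x_i ^ (d_c)` with integers `a_(c,i) ≠ 0`, if
`d_c ≥ 1` divides `q`, without a hypothesis on their reductions. -/
theorem result :
    (∀ (ι : Type) [Fintype ι] (q D : ℕ), 1 ≤ q → 1 ≤ D → ∀ (n d r : ι → ℕ)
      (h : ∀ c, MvPolynomial (Fin (n c)) ℤ),
      (∀ c, ∀ x : Fin (n c) → ℂ, (∀ i, aeval x (pderiv i (h c)) = 0) → x = 0) → ∀ N₀ : ℕ,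
      (∀ c, ∀ (p : ℕ) [Fact p.Prime], N₀ < p → p ≡ 1 [MOD q] →
        (hasseWitt p (n c) (d c) ((h c).map (Int.castRingHom (ZMod p)))).det ≠ 0) →
      ∀ lam θ K : ℝ, 0 < lam →
      2 * ((∑ c, (Idx (n c) (d c)).card * r c : ℕ) : ℝ) / (D * q.totient) < lam ^ 2 * θ →
      ∃ A : ℝ, ∀ F : ∀ c, MvPolynomial (Fin (n c)) (Polynomial ℤ),
        (∀ c, (F c).IsHomogeneous (d c) ∧ (∀ m, ((F c).coeff m).natDegree ≤ r c) ∧
          (F c).map Polynomial.constantCoeff = h c) →
        ∀ X : ℝ, 2 ≤ X →
          (Set.ncard {P : Polynomial ℤ | IsMin D X P ∧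
            ordSum q n d F P (X ^ θ) ≤ (1 / q.totient - lam) * θ * Real.log X + K} : ℝ) ≤
            A * X ^ θ) ∧
    (∀ (ι : Type) [Fintype ι] (q D : ℕ), 1 ≤ q → 1 ≤ D → ∀ n d r : ι → ℕ,
      (∀ c, 1 ≤ d c ∧ d c ∣ q) → ∀ a : ∀ c, Fin (n c) → ℤ, (∀ c i, a c i ≠ 0) →
      ∀ lam θ K : ℝ, 0 < lam →
      2 * ((∑ c, (Idx (n c) (d c)).card * r c : ℕ) : ℝ) / (D * q.totient) < lam ^ 2 * θ →
      ∃ A : ℝ, ∀ F : ∀ c, MvPolynomial (Fin (n c)) (Polynomial ℤ),
        (∀ c, (F c).IsHomogeneous (d c) ∧ (∀ m, ((F c).coeff m).natDegree ≤ r c) ∧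
          (F c).map Polynomial.constantCoeff = ∑ i, C (a c i) * X i ^ d c) →
        ∀ X : ℝ, 2 ≤ X →
          (Set.ncard {P : Polynomial ℤ | IsMin D X P ∧
            ordSum q n d F P (X ^ θ) ≤ (1 / q.totient - lam) * θ * Real.log X + K} : ℝ) ≤
            A * X ^ θ) :=
  ⟨fun _ _ => partA, fun _ _ => partB⟩

end Pool.Agent.Results.MP_adc574_ag.HypersurfaceFamilies
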