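import Pool.Agent.Run7.h635.GEN.Inf
import Pool.Agent.Run7.h635.GEN.Slopes

/-!
# Dense ordinary reduction for the eigenforms of weight at least 3 with integral coefficients

These are the forms attached to rigid Calabi-Yau threefolds over `ℚ` (weight 4), and to other
varieties over `ℚ` whose transcendental cohomology is two-dimensional of Hodge type
`(k - 1, 0) + (0, k - 1)`.
-/

set_option autoImplicit false

open MatrixGroups UpperHalfPlane CongruenceSubgroup

namespace Pool.Agent.Results.MP_adc574_ag.ModularDenseOrdinary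

/-- The Hecke operator `T_p` (`U_p` if `p ∣ M`) of weight `k` and level `Γ_0(M)` on functions on
the upper half-plane: `z ↦ p^(k-1) f(pz) + p^(-1) ∑_{b mod p} f((z+b)/p)`, where the first term is
left out if `p ∣ M`. -/
noncomputable def heckeT (M k p : ℕ) (f : ℍ → ℂ) (z : ℍ) : ℂ :=
  (if p ∣ M then 0 else (p : ℂ) ^ (k - 1) * f (ofComplex ((p : ℂ) * z))) +
    (∑ b ∈ Finset.range p, f (ofComplex (((z : ℂ) + b) / p))) / p

/-- `f`, a cusp form of weight `k` on `Γ_0(M)`, is a normalized Hecke eigenform with the rational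
integral coefficients `a n`: `f = ∑ a_n e(nz)`, `a_1 = 1`, and `f` is an eigenfunction of `T_p` for
all primes `p`. -/
structure IsIntegralEigenform {M k : ℕ} (f : CuspForm (Gamma0 M) k) (a : ℕ → ℤ) : Prop where
  coeff : ∀ n, (qExpansion 1 f).coeff n = a n
  one : a 1 = 1
  hecke : ∀ p : ℕ, p.Prime → ∃ c : ℂ, ∀ z : ℍ, heckeT M k p f z = c * f z

/-- The closed point `s` of `Spec A`, with residue field of `q = p^r` elements, is ordinary for the
system of Frobenius polynomials `T² - a_p T + p^m`: `p` does not divide the level `M`,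
`T² - a_p T + p^m = (T - α) (T - β)` over `ℚ_p`, and the eigenvalues `α^r`, `β^r` of the Frobenius at
`s` have the absolute values `1` and `q^(-m)`, so that the Newton polygon at `s` is the Hodge polygon
with slopes `0` and `m`. -/
def OrdinaryPoint {A : Type*} [CommRing A] (M m : ℕ) (a : ℕ → ℤ) (s : PrimeSpectrum A) : Prop :=
  s.asIdeal.IsMaximal ∧ ∃ (p r : ℕ) (_ : Fact p.Prime), Nat.card (A ⧸ s.asIdeal) = p ^ r ∧
    1 ≤ r ∧ ¬ p ∣ M ∧ ∃ α β : ℚ_[p],
      (Polynomial.X ^ 2 - Polynomial.C (a p : ℚ_[p]) * Polynomial.X +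
        Polynomial.C ((p : ℚ_[p]) ^ m)) =
        (Polynomial.X - Polynomial.C α) * (Polynomial.X - Polynomial.C β) ∧
      ‖α ^ r‖ = 1 ∧ ‖β ^ r‖ = ((p : ℝ) ^ r) ^ (-(m : ℤ))

/-- **Dense ordinary reduction.** For every normalized eigenform of weight `k ≥ 3` on `Γ_0(M)` with
rational integral coefficients `a_n`, and every domain `A` of characteristic `0` which is finitely
generated over `ℤ`, the closed points of `Spec A` which are ordinary for the system of Frobenius
polynomials `T² - a_p T + p^(k-1)` are dense. -/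
theorem result (M k : ℕ) [NeZero M] (hk : 3 ≤ k) (f : CuspForm (Gamma0 M) k) (a : ℕ → ℤ)
    (hf : IsIntegralEigenform f a) (A : Type*) [CommRing A] [IsDomain A] [CharZero A]
    [Algebra.FiniteType ℤ A] : Dense {s : PrimeSpectrum A | OrdinaryPoint M (k - 1) a s} := by
  have h1 : (qExpansion 1 f).coeff 1 = 1 := by rw [hf.coeff, hf.one, Int.cast_one]
  have h2 := (H635.GEN.rat M k hk f h1 hf.hecke a hf.coeff)
  refine (H635.GEN.dense_closed (H635.GEN.PosLog.infinite h2) (fun p hp => hp.1) A).mono ?_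
  rintro s ⟨hs, p, ⟨hp, hpM, hpa⟩, hps⟩
  have : Fact p.Prime := ⟨hp⟩
  obtain ⟨r, hr, hcard⟩ := H635.GEN.card_residue A s.asIdeal hp hps
  obtain ⟨α, β, hα, hβ, hαβ⟩ := (H635.GEN.Slopes.slopes_iff (k - 1) p (by omega) (a p)).2 hpa
  refine ⟨hs, p, r, this, hcard, hr, hpM, α, β, hαβ, ?_, ?_⟩
  · rw [norm_pow, hα, one_pow]
  · rw [norm_pow, hβ, zpow_neg, zpow_neg, inv_pow, zpow_natCast, zpow_natCast, ← pow_mul,
      ← pow_mul, mul_comm]

end Pool.Agent.Results.MP_adc574_ag.ModularDenseOrdinary
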